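import Mathlib
import Pool.Agent.R3.Stmts
import Pool.Agent.Helper21_R3.Kit

/-! COL and OVX: absorbing column moves, extending a state over `P`. -/

set_option autoImplicit false

namespace Pool.Agent.R3.H32

open Pool.Agent.R3 Pool.Agent.R3.Kit

theorem col (upt : UptStmt) (sqa : SqaStmt) (fdr : FdrStmt) : ColStmt := by
  intro V _ _ σ b c d ctx l x y r j R hnp hr0 hj hjr hrR hxR hyR hR
  generalize hn : nu l = n
  induction n using Nat.strong_induction_on generalizing l x with
  | _ n ih =>
    have s0 := ctx.s0
    have hrx : r ≠ x := fun h => hxR (h ▸ hrR)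
    have hxr : x ≠ ph σ l r := fun h => hxR (h ▸ hR r hrR)
    have hnp' : NP σ (Function.update l r j) x (ph σ l r) := np_cmv hnp hrx hjr
    rcases eq_or_ne x y with hxy | hxy
    · -- the perfect matching
      have hjx : σ j r = x := by rw [hjr, hxy]
      have e1 : ph σ (Function.update l r j) r = x := by rw [ph_self, hjx]
      have f1 := (fdr V σ b c d ctx (Bs σ b c) (Function.update l r j) x (ph σ l r) r hnp' hxr
        hrx e1).1
      rw [Function.update_idem] at f1
      have u1 := upW upt b c (Function.update l r 0) r r r (l r) j 0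
        (Function.update_self _ _ _) (Function.update_self _ _ _) (Function.update_self _ _ _)
      simp only [Function.update_idem, Function.update_eq_self] at u1
      rw [Ps_eq_Fd, f1, ← hxy, Fd_neg]
      unfold Bg
      rw [Ps_eq_Fd, ← u1]
      ring
    · obtain ⟨p, hpx, hp⟩ := np_cov hnp hxy
      have hpR : p ∉ R := fun h => hxR (hp ▸ hR p h)
      have hrp : r ≠ p := fun h => hpR (h ▸ hrR)
      have hlp : l p ≠ 0 := np_p s0 hpx hp
      have f1 := (fdr V σ b c d ctx (Bg σ b c r) l x y p hnp hxy hpx hp).1
      have hp' : ph σ (Function.update l r j) p = x := by rw [ph_ne hrp.symm, hp]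
      have f2 := (fdr V σ b c d ctx (Bs σ b c) (Function.update l r j) x (ph σ l r) p hnp' hxr
        hpx hp').1
      have hnp1 : NP σ (Function.update l p 0) p y := np_row s0 hnp hxy hpx hp
      have hnp2 : NP σ (Function.update (Function.update l r j) p 0) p (ph σ l r) :=
        np_row s0 hnp' hxr hpx hp'
      have i1 := ih (nu (Function.update l p 0)) (by rw [← hn]; exact nu_lt hlp)
        (Function.update l p 0) p hnp1 (by rw [Function.update_of_ne hrp]; exact hr0) hpR
        (fun v hv => by
          have hvp : v ≠ p := fun h => hpR (h ▸ hv)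
          rw [ph_ne hvp]
          exact hR v hv) rfl
      have e2 : Function.update (Function.update l p 0) r j =
          Function.update (Function.update l r j) p 0 := Function.update_comm hrp.symm _ _ _
      rw [e2, ph_ne hrp] at i1
      have sq := sqP sqa ctx.hd (pt l - dl (l r) - dl (l p)) (l p) 0 (l r) j
        (l₀₀ := l) (l₁₀ := Function.update l p 0)
        (l₁₁ := Function.update (Function.update l r j) p 0) (l₀₁ := Function.update l r j)
        (by abel) (by rw [pt_zero, dl_zero]; abel)
        (by rw [pt_zero, pt_update, Function.update_of_ne hrp.symm, dl_zero]; abel)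
        (by rw [pt_update]; abel)
        (ctx.miss _ _ _ hnp) (ctx.miss _ _ _ hnp1) (ctx.miss _ _ _ hnp2) (ctx.miss _ _ _ hnp')
      rw [f1, i1, Ps_eq_Fd (l := Function.update l r j), f2, Ps_eq_Fd]
      linarith

theorem ovx (fdr : FdrStmt) : OvxStmt := by
  intro V _ _ σ b c d ctx P l z y j hP hov hj hl0 hzy hzz hPz
  obtain ⟨hnp, hret, hlab⟩ := hov
  have s0 := ctx.s0
  have hnp' : NP σ (Function.update l z j) (σ j z) y := by
    refine ⟨by rw [Function.update_of_ne hzz]; exact hl0, ?_, ?_⟩
    · intro v hv
      rcases eq_or_ne v z with rfl | hvz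
      · rw [ph_self]
        exact hzy
      · rw [ph_ne hvz]
        exact hnp.2.1 v hvz
    · intro v w hv hw hvw
      have hz' : ph σ l (σ j z) = σ j z := ph_zero s0 hl0
      rcases eq_or_ne v z with hvz | hvz
      · rcases eq_or_ne w z with hwz | hwz
        · rw [hvz, hwz]
        · rw [hvz, ph_self, ph_ne hwz, ← hz'] at hvw
          exact absurd (hnp.2.2 _ w hzz hwz hvw).symm hw
      · rcases eq_or_ne w z with hwz | hwz
        · rw [hwz, ph_self, ph_ne hvz, ← hz'] at hvw
          exact absurd (hnp.2.2 v _ hvz hzz hvw) hv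
        · rw [ph_ne hvz, ph_ne hwz] at hvw
          exact hnp.2.2 v w hvz hwz hvw
  refine ⟨hnp', ?_, ?_⟩
  · have f1 := (fdr V σ b c d ctx (Bs σ b c) (Function.update l z j) (σ j z) y z hnp' hzy
      hzz.symm (ph_self _ _)).2
    rw [Function.update_idem, ← hnp.1, Function.update_eq_self] at f1
    rw [← f1, hret]
  · intro v hv
    rcases eq_or_ne v z with rfl | hvz
    · have := hlab v hv
      rw [hnp.1] at this
      exact absurd this.symm hv
    · rw [Function.update_of_ne hvz]
      exact hlab v hv

end Pool.Agent.R3.H32
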